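import Mathlib
import Pool.Agent.H242R3.ES.Stmts
import Pool.Agent.H242R3.ES.StmtsG
import Pool.Agent.H242R3.ES.StmtsK

/-!
# ES-K1: edges of an edge-scribed 3-polytope
-/

set_option autoImplicit false
set_option maxHeartbeats 4000000

open Finset
open scoped Classical

namespace Pool.Agent.H979R3.ES.K1

open Pool.Agent.H242R3.ES

theorem B_comm {D : ℕ} (x y : LV D) : B x y = B y x := by
  simp only [B, mul_comm]

theorem B_add_left {D : ℕ} (x y z : LV D) : B (x + y) z = B x z + B y z := by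
  simp only [B, Pi.add_apply, add_mul, Finset.sum_add_distrib]
  ring

theorem B_add_right {D : ℕ} (x y z : LV D) : B x (y + z) = B x y + B x z := by
  rw [B_comm, B_add_left, B_comm y, B_comm z]

theorem B_smul_left {D : ℕ} (c : ℝ) (x z : LV D) : B (c • x) z = c * B x z := by
  simp only [B, Pi.smul_apply, smul_eq_mul, mul_sub, Finset.mul_sum, mul_assoc]

/-- the functional `x ↦ - B x w` -/
noncomputable def Bl {D : ℕ} (w : LV D) : LV D →ₗ[ℝ] ℝ where
  toFun x := - B x w
  map_add' x y := by rw [B_add_left]; ring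
  map_smul' c x := by simp only [B_smul_left, smul_eq_mul, RingHom.id_apply]; ring

section

variable {ι : Type} [Fintype ι] {V : ι → LV 3}

theorem face_empty (hq : GQ 3 V) : Face V ∅ := by
  obtain ⟨w, _, hw⟩ := hq.tw
  refine ⟨Bl w, fun i => ?_, fun i => ?_⟩
  · show 0 ≤ - B (V i) w
    have := hw i
    linarith
  · show i ∈ (∅ : Set ι) ↔ - B (V i) w = 0
    have := hw i
    constructor
    · intro h; exact absurd h (Set.notMem_empty i)
    · intro h; exfalso; linarith

omit [Fintype ι] in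
theorem face_univ (V : ι → LV 3) : Face V Set.univ :=
  ⟨0, fun i => le_refl _, fun i => by simp⟩

omit [Fintype ι] in
theorem rk_empty (V : ι → LV 3) : rk V ∅ = 0 := by
  simp [rk]

theorem rk_univ (hq : GQ 3 V) : rk V Set.univ = 4 := by
  rw [rk, Set.image_univ, hq.span, finrank_top]
  simp

theorem ne_zero (hq : GQ 3 V) (i : ι) : V i ≠ 0 := by
  intro h
  have := hq.norm i
  rw [h] at this
  simp [B] at this

theorem rk_single (hq : GQ 3 V) (i : ι) : rk V {i} = 1 := by
  rw [rk, Set.image_singleton]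
  exact finrank_span_singleton (ne_zero hq i)

theorem rk_pair (h2 : TaskG2) (hq : GQ 3 V) {i j : ι} (hij : i ≠ j) (hf : Face V {i, j}) :
    rk V {i, j} = 2 := by
  have hlt : ({i} : Set ι) ⊂ {i, j} := by
    refine ⟨by intro x hx; left; exact hx, ?_⟩
    intro h
    have : j ∈ ({i} : Set ι) := h (by right; rfl)
    exact hij (Set.mem_singleton_iff.1 this).symm
  have h1 := (h2 ι (LV 3) V {i} {i, j} (hq.vert i) hf).2.1 hlt
  rw [rk_single hq] at h1
  have h3 : rk V {i, j} ≤ 2 := by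
    rw [rk, Set.image_pair]
    have := finrank_span_le_card (R := ℝ) ({V i, V j} : Set (LV 3))
    refine this.trans ?_
    rw [Set.toFinset_card]
    have := Finset.card_le_two (a := V i) (b := V j)
    refine le_trans (le_of_eq ?_) this
    rw [← Set.toFinset_card]
    congr 1
    ext x
    simp
  omega

theorem edge_iff (h2 : TaskG2) (h3 : TaskG3) (h6 : TaskG6) (hq : GQ 3 V) (e : Set ι) :
    Ed V e ↔ ∃ i j, i ≠ j ∧ e = {i, j} ∧ Face V {i, j} := by
  constructor
  · rintro ⟨hf, hr⟩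
    have hne : (∅ : Set ι) ⊂ e := by
      refine (Set.empty_subset e).ssubset_of_ne ?_
      rintro rfl
      rw [rk_empty] at hr
      omega
    obtain ⟨⟨T, hTe, _, hTf, hT0, hTr⟩, _⟩ := h3 ι (LV 3) V ∅ e (face_empty hq) hf hne
    rw [rk_empty] at hTr
    obtain ⟨i, hi⟩ : T.Nonempty := by
      rw [Set.nonempty_iff_ne_empty]
      rintro rfl
      exact hT0.ne rfl
    have hT : T = {i} := by
      by_contra hcon
      have : ({i} : Set ι) ⊂ T :=
        (Set.singleton_subset_iff.2 hi).ssubset_of_ne (fun h => hcon h.symm)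
      have := (h2 ι (LV 3) V {i} T (hq.vert i) hTf).2.1 this
      rw [rk_single hq] at this
      omega
    subst hT
    have hss : ({i} : Set ι) ⊂ e := by
      refine hTe.ssubset_of_ne ?_
      rintro rfl
      omega
    have hcov : Cov V {i} e := ⟨hq.vert i, hf, hss, by rw [rk_single hq, hr]⟩
    obtain ⟨k, hk, hek⟩ := h6 ι (LV 3) V hq.vert i e hcov
    exact ⟨i, k, hk.symm, hek, by rw [← hek]; exact hf⟩
  · rintro ⟨i, j, hij, rfl, hf⟩
    exact ⟨hf, rk_pair h2 hq hij hf⟩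

theorem SY_pair {E : Type} [AddCommGroup E] [Module ℝ E] (V : ι → E) {i j : ι} (hij : i ≠ j) :
    SY V {i, j} = V i + V j := by
  rw [SY]
  refine (Finset.sum_congr (s₂ := ({i, j} : Finset ι)) ?_ (fun _ _ => rfl)).trans
    (Finset.sum_pair hij)
  ext x
  simp

theorem edge_B (h2 : TaskG2) (h3 : TaskG3) (h6 : TaskG6) (p7 : P7G) (hq : GQ 3 V) (e : Set ι)
    (he : Ed V e) : B (SY V e) (SY V e) = 0 ∧
      ∀ i, B (V i) (SY V e) ≤ 0 ∧ (B (V i) (SY V e) = 0 ↔ i ∈ e) := by
  obtain ⟨a, b, hab, rfl, hf⟩ := (edge_iff h2 h3 h6 hq e).1 he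
  have h1 := hq.norm a
  have h2' := hq.norm b
  have h3' := hq.edge a b hab hf
  have h4' := B_comm (V a) (V b)
  rw [SY_pair V hab]
  have ha : B (V a) (V a + V b) = 0 := by rw [B_add_right, h1, h3']; norm_num
  have hb : B (V b) (V a + V b) = 0 := by rw [B_add_right, h2', ← h4', h3']; norm_num
  refine ⟨by rw [B_add_left, ha, hb]; norm_num, fun i => ?_⟩
  by_cases hia : i = a
  · subst hia
    exact ⟨ha.le, fun _ => by left; rfl, fun _ => ha⟩
  · by_cases hib : i = b
    · subst hib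
      exact ⟨hb.le, fun _ => by right; rfl, fun _ => hb⟩
    · have := p7 3 ι V hq a b i hab hf hia hib
      refine ⟨this.le, fun h => by linarith, fun h => ?_⟩
      rcases h with h | h
      · exact absurd h hia
      · exact absurd h hib

theorem edge_edge (h2 : TaskG2) (h3 : TaskG3) (h6 : TaskG6) (p7 : P7G) (hq : GQ 3 V) (e f : Set ι)
    (he : Ed V e) (hf : Ed V f) (hef : e ≠ f) : B (SY V e) (SY V f) < 0 := by
  obtain ⟨_, he2⟩ := edge_B h2 h3 h6 p7 hq e he
  obtain ⟨k, l, hkl, rfl, hF⟩ := (edge_iff h2 h3 h6 hq f).1 hf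
  obtain ⟨a, b, hab, rfl, hE⟩ := (edge_iff h2 h3 h6 hq e).1 he
  rw [SY_pair V hkl, B_comm, B_add_left]
  obtain ⟨hk1, hk2⟩ := he2 k
  obtain ⟨hl1, hl2⟩ := he2 l
  by_contra hcon
  have hk0 : B (V k) (SY V {a, b}) = 0 := by linarith
  have hl0 : B (V l) (SY V {a, b}) = 0 := by linarith
  have hk := hk2.1 hk0
  have hl := hl2.1 hl0
  apply hef
  rcases hk with hk | hk <;> rcases hl with hl | hl
  · exact absurd (hk.trans hl.symm) hkl
  · rw [Set.mem_singleton_iff] at hl
    rw [hk, hl]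
  · rw [Set.mem_singleton_iff] at hk
    rw [hk, hl, Set.pair_comm]
  · rw [Set.mem_singleton_iff] at hk hl
    exact absurd (hk.trans hl.symm) hkl

theorem facets (h2 : TaskG2) (h3 : TaskG3) (h4 : TaskG4) (hq : GQ 3 V) (e : Set ι) (he : Ed V e) :
    ∃ F G, Fc V F ∧ Fc V G ∧ F ≠ G ∧ e = F ∩ G ∧ ∀ H, Fc V H → e ⊆ H → H = F ∨ H = G := by
  obtain ⟨hef, her⟩ := he
  have hss : e ⊂ Set.univ := by
    refine (Set.subset_univ e).ssubset_of_ne ?_
    rintro rfl
    rw [rk_univ hq] at her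
    omega
  obtain ⟨⟨F, hFu, hF⟩, _⟩ := h3 ι (LV 3) V e Set.univ hef (face_univ V) hss
  obtain ⟨G, ⟨⟨hG, hGu⟩, hGF⟩, huniq⟩ := h4 ι (LV 3) V e Set.univ hef (face_univ V) hss
    (by rw [rk_univ hq, her]) F hF hFu
  have hFr : rk V F = 3 := by rw [hF.2.2.2, her]
  have hGr : rk V G = 3 := by rw [hG.2.2.2, her]
  refine ⟨F, G, ⟨hF.2.1, hFr⟩, ⟨hG.2.1, hGr⟩, fun h => hGF h.symm, ?_, ?_⟩
  · have hI := (h2 ι (LV 3) V F G hF.2.1 hG.2.1).1
    by_contra hcon
    have h5 : e ⊂ F ∩ G :=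
      (Set.subset_inter hF.2.2.1.subset hG.2.2.1.subset).ssubset_of_ne hcon
    have h6 := (h2 ι (LV 3) V e (F ∩ G) hef hI).2.1 h5
    by_cases h7 : F ∩ G = F
    · have h8 : F ⊂ G := (Set.inter_eq_left.1 h7).ssubset_of_ne (fun h => hGF h.symm)
      have h9 := (h2 ι (LV 3) V F G hF.2.1 hG.2.1).2.1 h8
      omega
    · have h8 : F ∩ G ⊂ F := Set.inter_subset_left.ssubset_of_ne h7
      have h9 := (h2 ι (LV 3) V (F ∩ G) F hI hF.2.1).2.1 h8
      omega
  · intro H hH heH
    by_cases h5 : H = F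
    · exact Or.inl h5
    · right
      refine huniq H ⟨⟨⟨hef, hH.1, heH.ssubset_of_ne ?_, by rw [hH.2, her]⟩, Set.subset_univ H⟩, h5⟩
      rintro rfl
      have := hH.2
      omega

end

theorem t : TaskK1 := by
  intro h2 h3 h4 h6 p7 ι _ V hq
  exact ⟨fun e => edge_iff h2 h3 h6 hq e, fun i j hij => SY_pair V hij,
    fun e he => edge_B h2 h3 h6 p7 hq e he, fun e f he hf hef => edge_edge h2 h3 h6 p7 hq e f he hf hef,
    fun e he => facets h2 h3 h4 hq e he⟩

end Pool.Agent.H979R3.ES.K1
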